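import Pool.Agent.helper91.SI.Spec5

/-!
Row si:CNA (second prover): the component with the slides is isomorphic to its i-graph.
-/

set_option autoImplicit false

namespace Pool.Agent.helper91.SI

open Pool.Agent.helper20.IG (IsIndepDom IsISet iGraph)

private theorem CNA_noC4 {V W : Type} (G : SimpleGraph V) (H : SimpleGraph W) (e : G ≃g H)
    (h : NoC4 H) : NoC4 G := by
  intro a b c d h1 h2 h3 h4 hac hbd
  exact h (e a) (e b) (e c) (e d) (e.map_rel_iff.2 h1) (e.map_rel_iff.2 h2) (e.map_rel_iff.2 h3)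
    (e.map_rel_iff.2 h4) (fun q => hac (e.injective q)) (fun q => hbd (e.injective q))

private theorem CNA_three {V W : Type} (G : SimpleGraph V) (H : SimpleGraph W) (e : G ≃g H)
    (h : Three G) : Three H := by
  obtain ⟨x, a, b, c, h1, h2, h3, hab, hac, hbc⟩ := h
  exact ⟨e x, e a, e b, e c, e.map_rel_iff.2 h1, e.map_rel_iff.2 h2, e.map_rel_iff.2 h3,
    fun q => hab (e.injective q), fun q => hac (e.injective q), fun q => hbc (e.injective q)⟩

private theorem CNA_noC4i {V : Type} (G : SimpleGraph V) (A : Set V) (h : NoC4 G) :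
    NoC4 (G.induce A) := by
  intro a b c d h1 h2 h3 h4 hac hbd
  exact h a b c d h1 h2 h3 h4 (fun q => hac (Subtype.ext q)) (fun q => hbd (Subtype.ext q))

private theorem CNA_noTrii {V : Type} (G : SimpleGraph V) (A : Set V) (h : NoTri G) :
    NoTri (G.induce A) := by
  intro a b c h1 h2 h3
  exact h a b c h1 h2 h3

private theorem CNA_noC6i {V : Type} (G : SimpleGraph V) (A : Set V) (h : NoC6 G) :
    NoC6 (G.induce A) := by
  intro a b c d e f hn h1 h2 h3 h4 h5 h6
  refine h a b c d e f ?_ h1 h2 h3 h4 h5 h6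
  have := hn.map (f := Subtype.val) Subtype.val_injective
  simpa using this

private theorem CNA_threei {V : Type} (G : SimpleGraph V) (A : Set V) (h : Three (G.induce A)) :
    Three G := by
  obtain ⟨x, a, b, c, h1, h2, h3, hab, hac, hbc⟩ := h
  exact ⟨x, a, b, c, h1, h2, h3, fun q => hab (Subtype.ext q), fun q => hac (Subtype.ext q),
    fun q => hbc (Subtype.ext q)⟩

private theorem CNA_clo {V : Type} (G : SimpleGraph V) (s : V) :
    Clo G {z | G.Reachable s z} := by
  intro u v h
  constructor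
  · intro hu
    exact SimpleGraph.Reachable.trans hu h.reachable
  · intro hv
    exact SimpleGraph.Reachable.trans hv h.symm.reachable

private theorem CNA_walk {V : Type} (G : SimpleGraph V) (s u v : V) (p : G.Walk u v)
    (hu : G.Reachable s u) (hv : G.Reachable s v) :
    (G.induce {z | G.Reachable s z}).Reachable ⟨u, hu⟩ ⟨v, hv⟩ := by
  induction p with
  | nil => exact SimpleGraph.Reachable.refl _
  | @cons a b c hab q ih =>
    have hb : G.Reachable s b := hu.trans hab.reachable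
    have h1 : (G.induce {z | G.Reachable s z}).Adj ⟨a, hu⟩ ⟨b, hb⟩ := hab
    exact h1.reachable.trans (ih hb hv)

private theorem CNA_conn {V : Type} (G : SimpleGraph V) (s : V) :
    (G.induce {z | G.Reachable s z}).Connected := by
  haveI : Nonempty {z | G.Reachable s z} := ⟨⟨s, SimpleGraph.Reachable.refl s⟩⟩
  refine ⟨?_⟩
  rintro ⟨u, hu⟩ ⟨v, hv⟩
  obtain ⟨p⟩ := (SimpleGraph.Reachable.symm hu).trans hv
  exact CNA_walk G s u v p hu hv

private theorem CNA_map {V W : Type} (G : SimpleGraph V) (H : SimpleGraph W) (e : G ≃g H)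
    (x y : V) : G.Reachable x y ↔ H.Reachable (e x) (e y) := by
  constructor
  · rintro ⟨p⟩
    exact ⟨p.map e.toHom⟩
  · rintro ⟨p⟩
    have h2 : G.Reachable (e.symm (e x)) (e.symm (e y)) := ⟨p.map e.symm.toHom⟩
    rwa [RelIso.symm_apply_apply, RelIso.symm_apply_apply] at h2

private def CNA_iso {V W : Type} (G : SimpleGraph V) (H : SimpleGraph W) (e : G ≃g H) (A : Set V)
    (B : Set W) (h : ∀ x, x ∈ A ↔ e x ∈ B) : G.induce A ≃g H.induce B where
  toEquiv := e.toEquiv.subtypeEquiv h
  map_rel_iff' := by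
    intro x y
    exact e.map_rel_iff

theorem CNA (hIAD : IAD_stmt) (hEMB : EMB_stmt) (hCLS : CLS_stmt) (hSZN : SZN_stmt) :
    CNA_stmt := by
  classical
  intro V _ _ G n3 n4 n6 nT e X s v hsl
  have hI4 : NoC4 (iGraph G) := CNA_noC4 _ _ e n4
  have hIT : ¬ Three (iGraph G) := fun h => nT (CNA_three _ _ e h)
  have hcK := CNA_clo G s
  have hsK : s ∈ {z | G.Reachable s z} := SimpleGraph.Reachable.refl s
  have hvK : v ∈ {z | G.Reachable s z} := hsl.2.2.2.1.reachable
  obtain ⟨eX⟩ := hEMB V G {z | G.Reachable s z} ⟨X, hsl.1⟩ hcK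
  obtain ⟨eD⟩ := hEMB V G {z | G.Reachable s z} (e.symm s) hcK
  -- the number of i-sets of the component
  have hle : Nat.card {S // IsISet (G.induce {z | G.Reachable s z}) S} ≤
      Nat.card {z | G.Reachable s z} := by
    haveI : Fintype {z | G.Reachable s z} := Fintype.ofFinite _
    refine hSZN _ (G.induce {z | G.Reachable s z}) (CNA_conn G s) (CNA_noTrii G _ n3)
      (CNA_noC4i G _ n4) (CNA_noC6i G _ n6) (fun h => nT (CNA_threei G _ h))
      (CNA_noC4 _ _ eX (CNA_noC4i _ _ hI4))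
      (fun h => hIT (CNA_threei _ _ (CNA_three _ _ eX h))) ?_
    have hX' : IsISet G (insert v (X.erase s)) := hsl.2.2.2.2
    have hmem : (⟨X, hsl.1⟩ : {S : Finset V // IsISet G S}) ∈
        {Y : {S : Finset V // IsISet G S} | ∀ z, z ∉ {z | G.Reachable s z} →
          (z ∈ Y.1 ↔ z ∈ X)} := fun z _ => Iff.rfl
    have hmem' : (⟨insert v (X.erase s), hX'⟩ : {S : Finset V // IsISet G S}) ∈
        {Y : {S : Finset V // IsISet G S} | ∀ z, z ∉ {z | G.Reachable s z} →
          (z ∈ Y.1 ↔ z ∈ X)} := by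
      intro z hz
      have h1 : z ≠ v := fun h => hz (h ▸ hvK)
      have h2 : z ≠ s := fun h => hz (h ▸ hsK)
      show z ∈ insert v (X.erase s) ↔ z ∈ X
      rw [Finset.mem_insert, Finset.mem_erase]
      constructor
      · rintro (h | h)
        · exact absurd h h1
        · exact h.2
      · intro h
        exact Or.inr ⟨h2, h⟩
    have hadj : (iGraph G).Adj ⟨X, hsl.1⟩ ⟨insert v (X.erase s), hX'⟩ :=
      (hIAD V G _ _).2 ⟨s, v, hsl, rfl⟩
    have hadj' : ((iGraph G).induce {Y : {S : Finset V // IsISet G S} |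
        ∀ z, z ∉ {z | G.Reachable s z} → (z ∈ Y.1 ↔ z ∈ X)}).Adj ⟨_, hmem⟩ ⟨_, hmem'⟩ := hadj
    exact ⟨_, _, eX.symm.map_rel_iff.2 hadj'⟩
  -- the two classes of i-sets
  have hsub : {Y : {S : Finset V // IsISet G S} | e Y ∈ {z | G.Reachable s z}} ⊆
      {Y : {S : Finset V // IsISet G S} | ∀ z, z ∉ {z | G.Reachable s z} →
        (z ∈ Y.1 ↔ z ∈ (e.symm s).1)} := by
    intro Y hY z hz
    have h1 : (iGraph G).Reachable (e.symm s) Y := by
      rw [CNA_map (iGraph G) G e, RelIso.apply_symm_apply]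
      exact hY
    exact (hCLS V G {z | G.Reachable s z} X s v n3 hI4 hcK hsl hsK (e.symm s) Y h1 z hz).symm
  have hC : Nat.card {Y : {S : Finset V // IsISet G S} | e Y ∈ {z | G.Reachable s z}} =
      Nat.card {z | G.Reachable s z} :=
    Nat.card_congr (e.toEquiv.subtypeEquiv (fun _ => Iff.rfl))
  have hDc : Nat.card {Y : {S : Finset V // IsISet G S} | ∀ z, z ∉ {z | G.Reachable s z} →
        (z ∈ Y.1 ↔ z ∈ (e.symm s).1)} =
      Nat.card {S // IsISet (G.induce {z | G.Reachable s z}) S} :=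
    (Nat.card_congr eD.toEquiv).symm
  have heq : {Y : {S : Finset V // IsISet G S} | e Y ∈ {z | G.Reachable s z}} =
      {Y : {S : Finset V // IsISet G S} | ∀ z, z ∉ {z | G.Reachable s z} →
        (z ∈ Y.1 ↔ z ∈ (e.symm s).1)} := by
    apply Set.eq_of_subset_of_ncard_le hsub
    · show Nat.card _ ≤ Nat.card _
      rw [hDc, hC]
      exact hle
  have eC := CNA_iso (iGraph G) G e {Y : {S : Finset V // IsISet G S} |
    ∀ z, z ∉ {z | G.Reachable s z} → (z ∈ Y.1 ↔ z ∈ (e.symm s).1)} {z | G.Reachable s z}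
    (fun Y => by rw [← heq]; rfl)
  exact ⟨eD.trans eC⟩

end Pool.Agent.helper91.SI
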